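import Mathlib

/-!
# Minimal infinity norm of inverses of bounded diagonally dominant matrices

Let `B = J⁻¹`, `r i` the row sums of `J`, `ρ` their sum and `t` the target value. As `J` is positive
definite, `B i i ≥ 2 y i - yᵀ J y` for every vector `y`; with `y = p e_i - s 1` this bounds `B i i`
from below by a function of `r i` and `ρ`. The `i`-th absolute row sum of `B` is at least
`2 B i i - x i`, `x` the row sums of `B`, and `∑ r i * x i = n`. Summing with weights `r i` gives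
the inequality: termwise, with `ρ` replaced by its maximal value, if `n ≥ 4` or `δ > m / 2`, and by
a tangent line argument with the actual `ρ` if `n = 3` and `δ ≤ m / 2`.
-/

namespace Pool.Agent.Results.MP_7ad8d2_an.MinimalInverseNorm

open Finset Matrix

/-- The diagonal dominance of row `i`. -/
def dd {n : ℕ} (J : Matrix (Fin n) (Fin n) ℝ) (i : Fin n) : ℝ :=
  J i i - ∑ j ∈ univ.erase i, J i j

/-- The class `C_n(m, δ)`. -/
structure InC {n : ℕ} (m δ : ℝ) (J : Matrix (Fin n) (Fin n) ℝ) : Prop where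
  symm : J.IsSymm
  pos : ∀ i j, 0 < J i j
  off : ∀ i j, i ≠ j → J i j ≤ m
  low : ∀ i, 0 ≤ dd J i
  up : ∀ i, dd J i ≤ δ

/-- The maximum absolute row sum. -/
noncomputable def rowNorm {n : ℕ} (A : Matrix (Fin n) (Fin n) ℝ) : ℝ := ⨆ i, ∑ j, |A i j|

/-- The matrix `S(α, m) = α I + m 1 1ᵀ`. -/
def S (n : ℕ) (α m : ℝ) : Matrix (Fin n) (Fin n) ℝ :=
  α • (1 : Matrix (Fin n) (Fin n) ℝ) + m • Matrix.of (fun _ _ => (1 : ℝ))

/-! ### Scalar inequalities -/

/-- A concave quadratic positive at the ends of an interval is positive on it. -/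
lemma concave_pos {a b r p q c : ℝ} (hc : 0 ≤ c) (ha : a ≤ r) (hb : r ≤ b)
    (h0 : 0 < p * a - c * a ^ 2 - q) (h1 : 0 < p * b - c * b ^ 2 - q) :
    0 < p * r - c * r ^ 2 - q := by
  rcases eq_or_lt_of_le ha with h | h
  · rw [← h]; exact h0
  have hab : a < b := lt_of_lt_of_le h hb
  have key : (b - a) * (p * r - c * r ^ 2 - q) =
      (b - r) * (p * a - c * a ^ 2 - q) + (r - a) * (p * b - c * b ^ 2 - q)
        + c * ((r - a) * (b - r) * (b - a)) := by ring
  have h2 : 0 ≤ (b - r) * (p * a - c * a ^ 2 - q) := mul_nonneg (by linarith) h0.le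
  have h3 : 0 < (r - a) * (p * b - c * b ^ 2 - q) := mul_pos (by linarith) h1
  have h4 : 0 ≤ c * ((r - a) * (b - r) * (b - a)) :=
    mul_nonneg hc (mul_nonneg (mul_nonneg (by linarith) (by linarith)) (by linarith))
  have h5 : 0 < (b - a) * (p * r - c * r ^ 2 - q) := by rw [key]; linarith
  exact pos_of_mul_pos_of_pos_left' h5 (by linarith)
where
  pos_of_mul_pos_of_pos_left' {x y : ℝ} (h : 0 < x * y) (hx : 0 < x) : 0 < y := by
    rcases (pos_iff_pos_of_mul_pos h).1 hx with h'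
    exact h'

/-- The optimal choice of `p` and `s`. -/
lemma opt {Jb ρ r b : ℝ} (hQ : 0 < Jb * ρ - r ^ 2)
    (h : ∀ p s : ℝ, 2 * (p - s) - p ^ 2 * Jb + 2 * p * s * r - s ^ 2 * ρ ≤ b) :
    (Jb + ρ - 2 * r) / (Jb * ρ - r ^ 2) ≤ b := by
  have h1 := h ((ρ - r) / (Jb * ρ - r ^ 2)) ((r - Jb) / (Jb * ρ - r ^ 2))
  refine le_trans (le_of_eq ?_) h1
  have hQ' := hQ.ne'
  field_simp
  ring

/-- The termwise inequality, `m = 1`. -/
lemma caseA {n δ t r b : ℝ} (hn : 4 ≤ n ∨ (n = 3 ∧ 1 / 2 < δ)) (hδ : 0 ≤ δ)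
    (ht : t = (3 * n - 4 + δ) / ((n - 2 + δ) * (2 * n - 2 + δ)))
    (h0 : 2 ≤ t * (r + δ)) (h1 : r ≤ 2 * n - 2 + δ)
    (h : ∀ p s : ℝ, 2 * (p - s) - p ^ 2 * ((r + δ) / 2) + 2 * p * s * r
      - s ^ 2 * (n * (2 * n - 2 + δ)) ≤ b) :
    1 ≤ r * (2 * b - t) ∧ (r * (2 * b - t) = 1 → r = 2 * n - 2 + δ) := by
  have hn3 : 3 ≤ n := by rcases hn with h | h <;> linarith
  have hα : 0 < n - 2 + δ := by linarith
  have hS : 0 < 2 * n - 2 + δ := by linarith
  have htpos : 0 < t := by rw [ht]; apply div_pos <;> [linarith; positivity]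
  have ht' : t * ((n - 2 + δ) * (2 * n - 2 + δ)) = 3 * n - 4 + δ := by
    rw [ht]; exact div_mul_cancel₀ _ (by positivity)
  have htS : 1 ≤ t * (2 * n - 2 + δ) := by
    by_contra hcon
    push Not at hcon
    nlinarith
  have hu : t * δ < 1 := by
    rw [ht, div_mul_eq_mul_div, div_lt_one (by positivity)]
    nlinarith
  set rS : ℝ := 2 * n - 2 + δ with hrS
  have hr0 : δ < r := by
    by_contra hcon
    push Not at hcon
    nlinarith
  have hrpos : 0 < r := lt_of_le_of_lt hδ hr0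
  have hQ : 0 < (r + δ) / 2 * (n * rS) - r ^ 2 := by
    have : r * r ≤ r * rS := by nlinarith
    nlinarith [mul_pos hrpos hS, mul_nonneg hδ hS.le]
  have hb := opt hQ h
  -- the bracket is positive
  have hK : 0 < (4 + (n - 2) * (t * rS)) * r - (2 * t) * r ^ 2 - n * δ := by
    refine concave_pos (a := 2 / t - δ) (b := rS) (by positivity) ?_ h1 ?_ ?_
    · rw [sub_le_iff_le_add, div_le_iff₀ htpos]; linarith
    · have e : t * ((4 + (n - 2) * (t * rS)) * (2 / t - δ) - (2 * t) * (2 / t - δ) ^ 2 - n * δ)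
          = (4 + (n - 2) * (t * rS)) * (2 - t * δ) - 2 * (2 - t * δ) ^ 2 - n * (t * δ) := by
        field_simp
      have hu0 : 0 ≤ t * δ := by positivity
      have e2 : 0 < (4 + (n - 2) * (t * rS)) * (2 - t * δ) - 2 * (2 - t * δ) ^ 2
          - n * (t * δ) := by
        have h3 : (4 + (n - 2) * 1) * (2 - t * δ) ≤ (4 + (n - 2) * (t * rS)) * (2 - t * δ) := by
          apply mul_le_mul_of_nonneg_right _ (by linarith)
          have := mul_le_mul_of_nonneg_left htS (by linarith : (0 : ℝ) ≤ n - 2)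
          linarith
        have h4 : (4 + (n - 2) * 1) * (2 - t * δ) - 2 * (2 - t * δ) ^ 2 - n * (t * δ)
            = 2 * ((1 - t * δ) * (n - 2 + t * δ)) := by ring
        have h5 : 0 < (1 - t * δ) * (n - 2 + t * δ) := mul_pos (by linarith) (by linarith)
        linarith
      rw [← e] at e2
      exact (pos_iff_pos_of_mul_pos e2).1 htpos
    · rcases hn with hn4 | ⟨hn4, hδ2⟩
      · have h3 : rS * 1 ≤ rS * (t * rS) := mul_le_mul_of_nonneg_left htS hS.le
        have h4 : (4 + (n - 2) * (t * rS)) * rS - (2 * t) * rS ^ 2 - n * δ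
            = 4 * rS + (n - 4) * (rS * (t * rS)) - n * δ := by ring
        rw [h4]
        have h5 := mul_le_mul_of_nonneg_left h3 (by linarith : (0 : ℝ) ≤ n - 4)
        nlinarith
      · have h4 : (4 + (n - 2) * (t * rS)) * rS - (2 * t) * rS ^ 2 - n * δ
            = rS * (4 - t * rS) - 3 * δ := by rw [hn4]; ring
        rw [h4]
        have h5 : (1 + δ) * (rS * (4 - t * rS) - 3 * δ) = 8 * δ - 4 := by
          have e1 : (1 + δ) * (t * rS) = 5 + δ := by
            have h7 : (1 + δ) * (t * rS) = t * ((n - 2 + δ) * rS) := by rw [hn4]; ring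
            rw [h7, ht', hn4]; ring
          have e2 : rS = 4 + δ := by rw [hrS, hn4]; ring
          calc (1 + δ) * (rS * (4 - t * rS) - 3 * δ)
              = rS * (4 * (1 + δ) - (1 + δ) * (t * rS)) - 3 * δ * (1 + δ) := by ring
            _ = rS * (4 * (1 + δ) - (5 + δ)) - 3 * δ * (1 + δ) := by rw [e1]
            _ = 8 * δ - 4 := by rw [e2]; ring
        have h6 : 0 < (1 + δ) * (rS * (4 - t * rS) - 3 * δ) := by rw [h5]; linarith
        exact (pos_iff_pos_of_mul_pos h6).1 (by linarith)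
  -- the identity
  have hid : 2 * r * (((r + δ) / 2) + n * rS - 2 * r)
      - (1 + t * r) * ((r + δ) / 2 * (n * rS) - r ^ 2)
      = (rS - r) / 2 * ((4 + (n - 2) * (t * rS)) * r - (2 * t) * r ^ 2 - n * δ) := by
    have e : (n - 2 + δ) * (2 * n - 2) * (t * rS) = (2 * n - 2) * (3 * n - 4 + δ) := by
      have : (n - 2 + δ) * (2 * n - 2) * (t * rS) = (2 * n - 2) * (t * ((n - 2 + δ) * rS)) := by
        ring
      rw [this, ht']
    have e' : (t * rS) * (n * δ + (n - 2) * rS) = (3 * n - 4) * rS + (2 - n) * δ := by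
      have : (t * rS) * (n * δ + (n - 2) * rS) = (n - 2 + δ) * (2 * n - 2) * (t * rS) := by
        rw [hrS]; ring
      rw [this, e, hrS]; ring
    linear_combination (-r / 2) * e'
  have hc : 1 + (rS - r) / 2 * ((4 + (n - 2) * (t * rS)) * r - (2 * t) * r ^ 2 - n * δ)
      / ((r + δ) / 2 * (n * rS) - r ^ 2) ≤ r * (2 * b - t) := by
    have e : 1 + (rS - r) / 2 * ((4 + (n - 2) * (t * rS)) * r - (2 * t) * r ^ 2 - n * δ)
      / ((r + δ) / 2 * (n * rS) - r ^ 2) =
        r * (2 * (((r + δ) / 2 + n * rS - 2 * r) / ((r + δ) / 2 * (n * rS) - r ^ 2)) - t) := by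
      rw [← hid]
      generalize hQ1 : (r + δ) / 2 * (n * rS) - r ^ 2 = Q at hQ
      have hQ' := hQ.ne'
      field_simp
      ring
    rw [e]
    apply mul_le_mul_of_nonneg_left _ hrpos.le
    linarith
  constructor
  · refine le_trans ?_ hc
    have : 0 ≤ (rS - r) / 2 * ((4 + (n - 2) * (t * rS)) * r - (2 * t) * r ^ 2 - n * δ)
      / ((r + δ) / 2 * (n * rS) - r ^ 2) :=
      div_nonneg (mul_nonneg (by linarith) hK.le) hQ.le
    linarith
  · intro heq
    by_contra hne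
    have hlt : r < rS := lt_of_le_of_ne h1 hne
    have : 0 < (rS - r) / 2 * ((4 + (n - 2) * (t * rS)) * r - (2 * t) * r ^ 2 - n * δ)
      / ((r + δ) / 2 * (n * rS) - r ^ 2) :=
      div_pos (mul_pos (by linarith) hK) hQ
    linarith

/-- The case `n = 3`, `δ ≤ 1/2`: the value at the optimum against the tangent line. -/
lemma caseB {δ r q b : ℝ} (hδ : 0 ≤ δ) (hr : δ ≤ r) (hr' : 0 < r) (hq : 3 * δ ≤ q) (hq' : 0 < q)
    (hQ : 0 < (r + δ) / 2 * (3 * q) - r ^ 2)
    (h : ∀ p s : ℝ, 2 * (p - s) - p ^ 2 * ((r + δ) / 2) + 2 * p * s * r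
      - s ^ 2 * (3 * q) ≤ b) :
    3 + (3 * q - 7 * δ) / (q + 3 * δ)
      + (6 * q ^ 2 + 4 * q * δ + 6 * δ ^ 2) / (q * (q + 3 * δ) ^ 2) * (r - q) ≤ 2 * (r * b) := by
  have hb := opt hQ h
  have h1 : 2 * (r * (((r + δ) / 2 + 3 * q - 2 * r) / ((r + δ) / 2 * (3 * q) - r ^ 2)))
      ≤ 2 * (r * b) := by
    have := mul_le_mul_of_nonneg_left hb hr'.le
    linarith
  refine le_trans ?_ h1
  rw [← sub_nonneg]
  have hq3 : 0 < q + 3 * δ := by linarith
  have e : 2 * (r * (((r + δ) / 2 + 3 * q - 2 * r) / ((r + δ) / 2 * (3 * q) - r ^ 2)))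
      - (3 + (3 * q - 7 * δ) / (q + 3 * δ)
      + (6 * q ^ 2 + 4 * q * δ + 6 * δ ^ 2) / (q * (q + 3 * δ) ^ 2) * (r - q))
      = (r - q) ^ 2 * (2 * r * (6 * q ^ 2 + 4 * q * δ + 6 * δ ^ 2) - 48 * q * δ ^ 2)
        / ((2 * ((r + δ) / 2 * (3 * q) - r ^ 2)) * (q * (q + 3 * δ) ^ 2)) := by
    have hQ' := hQ.ne'
    have hQ'' : (r + δ) * (3 * q) - 2 * r ^ 2 ≠ 0 := by
      intro h0; apply hQ'; linarith
    rw [eq_div_iff (by positivity)]
    have e1 : (((r + δ) / 2 + 3 * q - 2 * r) / ((r + δ) / 2 * (3 * q) - r ^ 2))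
      * ((r + δ) / 2 * (3 * q) - r ^ 2) = (r + δ) / 2 + 3 * q - 2 * r := div_mul_cancel₀ _ hQ'
    have e2 : ((3 * q - 7 * δ) / (q + 3 * δ)) * (q + 3 * δ) = 3 * q - 7 * δ :=
      div_mul_cancel₀ _ hq3.ne'
    have e3 : ((6 * q ^ 2 + 4 * q * δ + 6 * δ ^ 2) / (q * (q + 3 * δ) ^ 2))
      * (q * (q + 3 * δ) ^ 2) = 6 * q ^ 2 + 4 * q * δ + 6 * δ ^ 2 :=
      div_mul_cancel₀ _ (by positivity)
    generalize ((r + δ) / 2 + 3 * q - 2 * r) / ((r + δ) / 2 * (3 * q) - r ^ 2) = X at *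
    generalize (3 * q - 7 * δ) / (q + 3 * δ) = Y at *
    generalize (6 * q ^ 2 + 4 * q * δ + 6 * δ ^ 2) / (q * (q + 3 * δ) ^ 2) = Z at *
    linear_combination (4 * r * (q * (q + 3 * δ) ^ 2)) * e1
      - (2 * ((r + δ) / 2 * (3 * q) - r ^ 2)) * (q * (q + 3 * δ)) * e2
      - (2 * ((r + δ) / 2 * (3 * q) - r ^ 2)) * (r - q) * e3
  rw [e]
  apply div_nonneg _ (by positivity)
  apply mul_nonneg (sq_nonneg _)
  have h2 : 0 ≤ (r - δ) * (6 * q ^ 2 + 4 * q * δ + 6 * δ ^ 2) :=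
    mul_nonneg (by linarith) (by positivity)
  have h3 : 0 ≤ δ * ((q - 3 * δ) * (3 * q - δ)) :=
    mul_nonneg hδ (mul_nonneg (by linarith) (by linarith))
  nlinarith

/-! ### The matrix part -/

section mat

variable {n : ℕ} {J : Matrix (Fin n) (Fin n) ℝ}

lemma dd_eq (i : Fin n) : dd J i = 2 * J i i - ∑ j, J i j := by
  rw [dd, ← Finset.add_sum_erase univ (fun j => J i j) (mem_univ i)]
  ring

lemma two_quad (hs : J.IsSymm) (v : Fin n → ℝ) : 2 * (v ⬝ᵥ J *ᵥ v) =
    ∑ i, ∑ j ∈ univ.erase i, J i j * (v i + v j) ^ 2 + 2 * ∑ i, dd J i * v i ^ 2 := by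
  have h1 : ∀ i, ∑ j ∈ univ.erase i, J i j * (v i + v j) ^ 2
      = ∑ j, J i j * (v i + v j) ^ 2 - 4 * (J i i * v i ^ 2) := by
    intro i
    rw [← Finset.add_sum_erase univ (fun j => J i j * (v i + v j) ^ 2) (mem_univ i)]
    ring
  have h2 : ∑ i, ∑ j, J i j * (v i + v j) ^ 2
      = 2 * ∑ i, (∑ j, J i j) * v i ^ 2 + 2 * (v ⬝ᵥ J *ᵥ v) := by
    have h3 : ∑ i, ∑ j, J i j * (v i + v j) ^ 2
        = ∑ i, ∑ j, J i j * v i ^ 2 + ∑ i, ∑ j, J i j * v j ^ 2
          + 2 * ∑ i, ∑ j, v i * (J i j * v j) := by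
      rw [Finset.mul_sum, ← Finset.sum_add_distrib, ← Finset.sum_add_distrib]
      refine Finset.sum_congr rfl fun i _ => ?_
      rw [Finset.mul_sum, ← Finset.sum_add_distrib, ← Finset.sum_add_distrib]
      refine Finset.sum_congr rfl fun j _ => ?_
      ring
    have h4 : ∑ i, ∑ j, J i j * v j ^ 2 = ∑ i, ∑ j, J i j * v i ^ 2 := by
      rw [Finset.sum_comm]
      refine Finset.sum_congr rfl fun i _ => Finset.sum_congr rfl fun j _ => ?_
      rw [hs.apply]
    have h5 : v ⬝ᵥ J *ᵥ v = ∑ i, ∑ j, v i * (J i j * v j) := by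
      simp only [dotProduct, mulVec, Finset.mul_sum]
    rw [h3, h4, h5]
    simp only [Finset.sum_mul]
    ring
  rw [Finset.sum_congr rfl (fun i _ => h1 i), Finset.sum_sub_distrib, h2]
  have h6 : ∑ i, dd J i * v i ^ 2 = 2 * ∑ i, J i i * v i ^ 2 - ∑ i, (∑ j, J i j) * v i ^ 2 := by
    rw [Finset.mul_sum, ← Finset.sum_sub_distrib]
    refine Finset.sum_congr rfl fun i _ => ?_
    rw [dd_eq]; ring
  rw [h6, ← Finset.mul_sum]
  ring

lemma quad_nonneg {m δ : ℝ} (hJ : InC m δ J) (v : Fin n → ℝ) : 0 ≤ v ⬝ᵥ J *ᵥ v := by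
  have h := two_quad hJ.symm v
  have h1 : 0 ≤ ∑ i, ∑ j ∈ univ.erase i, J i j * (v i + v j) ^ 2 :=
    Finset.sum_nonneg fun i _ => Finset.sum_nonneg fun j _ =>
      mul_nonneg (hJ.pos i j).le (sq_nonneg _)
  have h2 : 0 ≤ ∑ i, dd J i * v i ^ 2 :=
    Finset.sum_nonneg fun i _ => mul_nonneg (hJ.low i) (sq_nonneg _)
  linarith

lemma quad_eq_zero (hn : 3 ≤ n) {m δ : ℝ} (hJ : InC m δ J) {v : Fin n → ℝ}
    (hv : v ⬝ᵥ J *ᵥ v = 0) : v = 0 := by
  have h := two_quad hJ.symm v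
  have h0 : ∀ i ∈ univ, 0 ≤ ∑ j ∈ univ.erase i, J i j * (v i + v j) ^ 2 :=
    fun i _ => Finset.sum_nonneg fun j _ => mul_nonneg (hJ.pos i j).le (sq_nonneg _)
  have h1 : 0 ≤ ∑ i, ∑ j ∈ univ.erase i, J i j * (v i + v j) ^ 2 := Finset.sum_nonneg h0
  have h2 : 0 ≤ ∑ i, dd J i * v i ^ 2 :=
    Finset.sum_nonneg fun i _ => mul_nonneg (hJ.low i) (sq_nonneg _)
  have h3 : ∑ i, ∑ j ∈ univ.erase i, J i j * (v i + v j) ^ 2 = 0 := by linarith
  have h4 : ∀ i j, i ≠ j → v i + v j = 0 := by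
    intro i j hij
    have h5 := (Finset.sum_eq_zero_iff_of_nonneg h0).1 h3 i (mem_univ i)
    have h6 := (Finset.sum_eq_zero_iff_of_nonneg
      (fun j _ => mul_nonneg (hJ.pos i j).le (sq_nonneg _))).1 h5 j
      (Finset.mem_erase.2 ⟨hij.symm, mem_univ j⟩)
    rcases mul_eq_zero.1 h6 with h7 | h7
    · exact absurd h7 (hJ.pos i j).ne'
    · exact pow_eq_zero_iff (two_ne_zero) |>.1 h7
  funext i
  obtain ⟨j, hj⟩ : ∃ j : Fin n, j ≠ i := by
    by_contra hcon
    push Not at hcon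
    have : (univ : Finset (Fin n)).card ≤ 1 :=
      Finset.card_le_one.2 fun a _ b _ => by rw [hcon a, hcon b]
    rw [Finset.card_univ, Fintype.card_fin] at this
    omega
  obtain ⟨k, hk1, hk2⟩ : ∃ k : Fin n, k ≠ i ∧ k ≠ j := by
    by_contra hcon
    push Not at hcon
    have : (univ : Finset (Fin n)) ⊆ {i, j} := by
      intro a _
      by_cases ha : a = i
      · simp [ha]
      · simp [hcon a ha]
    have h7 := Finset.card_le_card this
    rw [Finset.card_univ, Fintype.card_fin] at h7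
    have h8 := Finset.card_le_two (a := i) (b := j)
    omega
  have e1 := h4 i j hj.symm
  have e2 := h4 i k hk1.symm
  have e3 := h4 j k hk2.symm
  simp only [Pi.zero_apply]
  linarith

lemma det_unit (hn : 3 ≤ n) {m δ : ℝ} (hJ : InC m δ J) : IsUnit J.det := by
  rw [isUnit_iff_ne_zero]
  intro h
  obtain ⟨v, hv, hv'⟩ := Matrix.exists_mulVec_eq_zero_iff.2 h
  apply hv
  apply quad_eq_zero hn hJ
  rw [hv', dotProduct_zero]

/-- The dual bound for the diagonal entries of the inverse. -/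
lemma inv_diag (hn : 3 ≤ n) {m δ : ℝ} (hJ : InC m δ J) (i : Fin n) (y : Fin n → ℝ) :
    2 * y i - y ⬝ᵥ J *ᵥ y ≤ J⁻¹ i i := by
  have hu := det_unit hn hJ
  have hb : J *ᵥ (J⁻¹ *ᵥ Pi.single i 1) = Pi.single i 1 := by
    rw [Matrix.mulVec_mulVec, Matrix.mul_nonsing_inv _ hu, Matrix.one_mulVec]
  have h := quad_nonneg hJ (y - J⁻¹ *ᵥ Pi.single i 1)
  rw [Matrix.mulVec_sub, hb, dotProduct_sub, sub_dotProduct, sub_dotProduct] at h
  have e1 : y ⬝ᵥ Pi.single i 1 = y i := by simp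
  have e2 : (J⁻¹ *ᵥ Pi.single i 1) ⬝ᵥ Pi.single i 1 = J⁻¹ i i := by simp
  have e3 : (J⁻¹ *ᵥ Pi.single i 1) ⬝ᵥ J *ᵥ y = y i := by
    rw [Matrix.dotProduct_mulVec, ← Matrix.mulVec_transpose, hJ.symm.eq, hb]
    simp
  rw [e1, e2, e3] at h
  linarith

lemma quad_ps (hs : J.IsSymm) (i : Fin n) (p s : ℝ) :
    (fun k => p * (Pi.single i 1 : Fin n → ℝ) k - s) ⬝ᵥ
      J *ᵥ (fun k => p * (Pi.single i 1 : Fin n → ℝ) k - s)
    = p ^ 2 * J i i - 2 * p * s * (∑ j, J i j) + s ^ 2 * ∑ k, ∑ j, J k j := by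
  have h1 : J *ᵥ (fun k => p * (Pi.single i 1 : Fin n → ℝ) k - s)
      = fun k => p * J k i - s * ∑ j, J k j := by
    funext k
    simp only [mulVec, dotProduct, mul_sub, Finset.sum_sub_distrib]
    congr 1
    · rw [Finset.sum_eq_single i]
      · simp; ring
      · intro b _ hb; simp [hb]
      · simp
    · rw [Finset.mul_sum]
      exact Finset.sum_congr rfl fun j _ => by ring
  rw [h1]
  simp only [dotProduct, sub_mul, Finset.sum_sub_distrib]
  have h2 : ∑ k, p * (Pi.single i 1 : Fin n → ℝ) k * (p * J k i - s * ∑ j, J k j)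
      = p * (p * J i i - s * ∑ j, J i j) := by
    rw [Finset.sum_eq_single i]
    · simp
    · intro b _ hb; simp [hb]
    · simp
  rw [h2]
  have h3 : ∑ k, s * (p * J k i - s * ∑ j, J k j)
      = s * (p * ∑ j, J i j) - s ^ 2 * ∑ k, ∑ j, J k j := by
    rw [← Finset.mul_sum, Finset.sum_sub_distrib, ← Finset.mul_sum, ← Finset.mul_sum]
    have : ∑ k, J k i = ∑ j, J i j := Finset.sum_congr rfl fun k _ => hs.apply i k
    rw [this]; ring
  rw [h3]; ring

/-- The lower bounds for `B i i`. -/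
lemma inv_diag_ps (hn : 3 ≤ n) {m δ : ℝ} (hJ : InC m δ J) (i : Fin n) (p s : ℝ) :
    2 * (p - s) - p ^ 2 * J i i + 2 * p * s * (∑ j, J i j) - s ^ 2 * ∑ k, ∑ j, J k j
      ≤ J⁻¹ i i := by
  have h := inv_diag hn hJ i (fun k => p * (Pi.single i 1 : Fin n → ℝ) k - s)
  rw [quad_ps hJ.symm] at h
  simp only [Pi.single_eq_same, mul_one] at h
  linarith

lemma weighted (hn : 3 ≤ n) {m δ : ℝ} (hJ : InC m δ J) :
    ∑ i, (∑ j, J i j) * ∑ j, J⁻¹ i j = n := by
  have hu := det_unit hn hJ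
  have h1 : ∑ i, (∑ j, J i j) * ∑ j, J⁻¹ i j = ∑ k, ∑ j, (J * J⁻¹) k j := by
    have : ∀ i, (∑ j, J i j) * ∑ j, J⁻¹ i j = ∑ k, ∑ j, J k i * J⁻¹ i j := by
      intro i
      have e : ∑ j, J i j = ∑ k, J k i := Finset.sum_congr rfl fun k _ => (hJ.symm.apply k i)
      rw [e, Finset.sum_mul]
      exact Finset.sum_congr rfl fun k _ => Finset.mul_sum _ _ _
    rw [Finset.sum_congr rfl fun i _ => this i, Finset.sum_comm]
    refine Finset.sum_congr rfl fun k _ => ?_
    rw [Finset.sum_comm]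
    refine Finset.sum_congr rfl fun j _ => ?_
    rw [Matrix.mul_apply]
  rw [h1, Matrix.mul_nonsing_inv _ hu]
  simp [Matrix.one_apply]

lemma abs_row (i : Fin n) (B : Matrix (Fin n) (Fin n) ℝ) :
    2 * B i i - ∑ j, B i j ≤ ∑ j, |B i j| ∧ B i i ≤ ∑ j, |B i j| := by
  constructor
  · rw [← Finset.add_sum_erase univ (fun j => |B i j|) (mem_univ i),
      ← Finset.add_sum_erase univ (fun j => B i j) (mem_univ i)]
    have h1 : - ∑ j ∈ univ.erase i, B i j ≤ ∑ j ∈ univ.erase i, |B i j| := by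
      rw [← Finset.sum_neg_distrib]
      exact Finset.sum_le_sum fun j _ => neg_le_abs _
    have h2 := le_abs_self (B i i)
    linarith
  · exact le_trans (le_abs_self _) (Finset.single_le_sum (f := fun j => |B i j|)
      (fun j _ => abs_nonneg _) (mem_univ i))

lemma offsum_le {m δ : ℝ} (hJ : InC m δ J) (i : Fin n) :
    ∑ j ∈ univ.erase i, J i j ≤ (n - 1) * m := by
  have h1 : ∑ j ∈ univ.erase i, J i j ≤ ∑ j ∈ univ.erase i, m :=
    Finset.sum_le_sum fun j hj => hJ.off i j (Finset.ne_of_mem_erase hj).symm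
  have hn : 1 ≤ n := by have := i.2; omega
  rw [Finset.sum_const, Finset.card_erase_of_mem (mem_univ i), Finset.card_univ,
    Fintype.card_fin, nsmul_eq_mul, Nat.cast_sub hn, Nat.cast_one] at h1
  exact h1

lemma row_le {m δ : ℝ} (hJ : InC m δ J) (i : Fin n) :
    ∑ j, J i j ≤ 2 * ((n - 1) * m) + δ := by
  have h1 := offsum_le hJ i
  have h2 := hJ.up i
  rw [dd] at h2
  rw [← Finset.add_sum_erase univ (fun j => J i j) (mem_univ i)]
  linarith

lemma eq_S {m δ : ℝ} (hJ : InC m δ J) (h : ∀ i, ∑ j, J i j = 2 * ((n - 1) * m) + δ) :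
    J = S n (m * (n - 2) + δ) m := by
  have h0 : ∀ i, ∑ j ∈ univ.erase i, J i j = (n - 1) * m ∧ J i i = (n - 1) * m + δ := by
    intro i
    have h1 := offsum_le hJ i
    have h2 := hJ.up i
    have h3 := h i
    rw [dd] at h2
    rw [← Finset.add_sum_erase univ (fun j => J i j) (mem_univ i)] at h3
    constructor <;> linarith
  have h1 : ∀ i j, i ≠ j → J i j = m := by
    intro i j hij
    have h2 : ∑ j ∈ univ.erase i, (m - J i j) = 0 := by
      rw [Finset.sum_sub_distrib, (h0 i).1, Finset.sum_const,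
        Finset.card_erase_of_mem (mem_univ i), Finset.card_univ, Fintype.card_fin, nsmul_eq_mul,
        Nat.cast_sub (by have := i.2; omega), Nat.cast_one]
      ring
    have h3 := (Finset.sum_eq_zero_iff_of_nonneg (fun j hj => by
      have := hJ.off i j (Finset.ne_of_mem_erase hj).symm; linarith)).1 h2 j
      (Finset.mem_erase.2 ⟨hij.symm, mem_univ j⟩)
    linarith
  ext i j
  by_cases hij : i = j
  · subst hij
    rw [(h0 i).2]
    simp [S]; ring
  · rw [h1 i j hij]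
    simp [S, hij]

lemma main1 (hn : 3 ≤ n) {δ t : ℝ} (hδ : 0 ≤ δ) (hJ : InC 1 δ J)
    (ht : t = (3 * n - 4 + δ) / ((n - 2 + δ) * (2 * n - 2 + δ)))
    (hT : ∀ i, ∑ j, |J⁻¹ i j| ≤ t) : ∀ i, ∑ j, J i j = 2 * n - 2 + δ := by
  have hn' : (3 : ℝ) ≤ n := by exact_mod_cast hn
  have hrle : ∀ i, ∑ j, J i j ≤ 2 * n - 2 + δ := by
    intro i; have := row_le hJ i; linarith
  have hrpos : ∀ i, 0 < ∑ j, J i j := by
    intro i
    exact lt_of_lt_of_le (hJ.pos i i)
      (Finset.single_le_sum (f := fun j => J i j) (fun j _ => (hJ.pos i j).le) (mem_univ i))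
  have hdiag : ∀ i, J i i ≤ (∑ j, J i j + δ) / 2 := by
    intro i; have := hJ.up i; rw [dd_eq] at this; linarith
  have hα : (0 : ℝ) < n - 2 + δ := by linarith
  have hS : (0 : ℝ) < 2 * n - 2 + δ := by linarith
  have htpos : 0 < t := by rw [ht]; apply div_pos <;> [linarith; positivity]
  have h0 : ∀ i, 2 ≤ t * (∑ j, J i j + δ) := by
    intro i
    have h1 := inv_diag_ps hn hJ i (1 / J i i) 0
    have h2 := (abs_row i J⁻¹).2
    have h3 := hT i
    have h4 : 2 * (1 / J i i - 0) - (1 / J i i) ^ 2 * J i i + 2 * (1 / J i i) * 0 * (∑ j, J i j)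
        - 0 ^ 2 * ∑ k, ∑ j, J k j = 1 / J i i := by
      have := (hJ.pos i i).ne'
      field_simp
      ring
    rw [h4] at h1
    have h5 : 1 / J i i ≤ t := by linarith
    rw [div_le_iff₀ (hJ.pos i i)] at h5
    have h6 := mul_le_mul_of_nonneg_left (hdiag i) htpos.le
    linarith
  have hps : ∀ i (p s : ℝ), 2 * (p - s) - p ^ 2 * ((∑ j, J i j + δ) / 2)
      + 2 * p * s * (∑ j, J i j) - s ^ 2 * ∑ k, ∑ j, J k j ≤ J⁻¹ i i := by
    intro i p s
    have h1 := inv_diag_ps hn hJ i p s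
    have h2 := mul_le_mul_of_nonneg_left (hdiag i) (sq_nonneg p)
    linarith
  have hsum : ∑ i, (∑ j, J i j) * (2 * J⁻¹ i i - t) ≤ n := by
    rw [← weighted hn hJ]
    refine Finset.sum_le_sum fun i _ => mul_le_mul_of_nonneg_left ?_ (hrpos i).le
    have h2 := (abs_row i J⁻¹).1
    have h3 := hT i
    linarith
  by_cases hcase : 4 ≤ (n : ℝ) ∨ ((n : ℝ) = 3 ∧ 1 / 2 < δ)
  · have hρ : ∑ k, ∑ j, J k j ≤ n * (2 * n - 2 + δ) := by
      calc ∑ k, ∑ j, J k j ≤ ∑ k : Fin n, (2 * (n : ℝ) - 2 + δ) :=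
            Finset.sum_le_sum fun k _ => hrle k
        _ = n * (2 * n - 2 + δ) := by
            rw [Finset.sum_const, Finset.card_univ, Fintype.card_fin, nsmul_eq_mul]
    have hA : ∀ i, 1 ≤ (∑ j, J i j) * (2 * J⁻¹ i i - t) ∧
        ((∑ j, J i j) * (2 * J⁻¹ i i - t) = 1 → ∑ j, J i j = 2 * n - 2 + δ) := by
      intro i
      refine caseA hcase hδ ht (h0 i) (hrle i) fun p s => ?_
      have h1 := hps i p s
      have h2 := mul_le_mul_of_nonneg_left hρ (sq_nonneg s)
      linarith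
    have h1 : ∑ i, ((∑ j, J i j) * (2 * J⁻¹ i i - t) - 1) = 0 := by
      apply le_antisymm
      · rw [Finset.sum_sub_distrib]; simp; linarith
      · exact Finset.sum_nonneg fun i _ => by linarith [(hA i).1]
    intro i
    have h2 := (Finset.sum_eq_zero_iff_of_nonneg
      (fun i _ => by linarith [(hA i).1])).1 h1 i (mem_univ i)
    exact (hA i).2 (by linarith)
  · have hn3 : (n : ℝ) = 3 := by
      by_contra hne
      apply hcase
      left
      have : n ≠ 3 := fun h => hne (by rw [h]; norm_num)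
      have : 4 ≤ n := by omega
      exact_mod_cast this
    have hδ2 : δ ≤ 1 / 2 := by
      by_contra hcon
      push Not at hcon
      exact hcase (Or.inr ⟨hn3, hcon⟩)
    obtain ⟨q, hq⟩ : ∃ q, q = (∑ k, ∑ j, J k j) / 3 := ⟨_, rfl⟩
    have hq' : ∑ k, ∑ j, J k j = 3 * q := by rw [hq]; ring
    have ht3 : t * ((1 + δ) * (4 + δ)) = 5 + δ := by
      rw [ht, hn3]
      have : ((3 : ℝ) - 2 + δ) * (2 * 3 - 2 + δ) = (1 + δ) * (4 + δ) := by ring
      rw [this, div_mul_cancel₀ _ (by positivity)]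
      ring
    -- lower bound for the row sums
    have hlow : ∀ i, 3 * δ < ∑ j, J i j := by
      intro i
      have h1 := h0 i
      by_contra hcon
      push Not at hcon
      have h2 : 2 * ((1 + δ) * (4 + δ)) ≤ (5 + δ) * (∑ j, J i j + δ) := by
        rw [← ht3]
        have := mul_le_mul_of_nonneg_left h1 (by positivity : 0 ≤ (1 + δ) * (4 + δ))
        linarith
      nlinarith
    have hqsum : ∑ i : Fin n, (∑ j, J i j - q) = 0 := by
      rw [Finset.sum_sub_distrib, hq']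
      simp [hn3]
    have hqlow : 3 * δ ≤ q ∧ 0 < q := by
      have h1 : ∑ k : Fin n, 3 * δ ≤ ∑ k, ∑ j, J k j :=
        Finset.sum_le_sum fun k _ => (hlow k).le
      have h2 : 0 < ∑ k, ∑ j, J k j :=
        Finset.sum_pos (fun k _ => hrpos k) ⟨⟨0, by omega⟩, mem_univ _⟩
      rw [hq'] at h1 h2
      simp only [Finset.sum_const, Finset.card_univ, Fintype.card_fin, nsmul_eq_mul, hn3] at h1
      constructor <;> linarith
    have hqle : q ≤ 4 + δ := by
      have h1 : ∑ k, ∑ j, J k j ≤ ∑ k : Fin n, (2 * (n : ℝ) - 2 + δ) :=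
        Finset.sum_le_sum fun k _ => hrle k
      rw [hq'] at h1
      simp only [Finset.sum_const, Finset.card_univ, Fintype.card_fin, nsmul_eq_mul, hn3] at h1
      linarith
    have hQ : ∀ i, 0 < (∑ j, J i j + δ) / 2 * (3 * q) - (∑ j, J i j) ^ 2 := by
      intro i
      have h1 : 0 < J i i * (3 * q) - (∑ j, J i j) ^ 2 := by
        by_contra hcon
        push Not at hcon
        have h2 := quad_ps hJ.symm i (∑ j, J i j) (J i i)
        rw [hq'] at h2
        have h3 : (∑ j, J i j) ^ 2 * J i i - 2 * (∑ j, J i j) * J i i * (∑ j, J i j)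
            + (J i i) ^ 2 * (3 * q) = J i i * (J i i * (3 * q) - (∑ j, J i j) ^ 2) := by ring
        rw [h3] at h2
        have h4 := quad_nonneg hJ
          (fun k => (∑ j, J i j) * (Pi.single i 1 : Fin n → ℝ) k - J i i)
        have h5 : J i i * (J i i * (3 * q) - (∑ j, J i j) ^ 2) ≤ 0 :=
          mul_nonpos_of_nonneg_of_nonpos (hJ.pos i i).le hcon
        have h6 := quad_eq_zero hn hJ (le_antisymm (h2.trans_le h5) h4)
        obtain ⟨j, hj⟩ : ∃ j : Fin n, j ≠ i := by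
          by_contra hcon
          push Not at hcon
          have : (univ : Finset (Fin n)).card ≤ 1 :=
            Finset.card_le_one.2 fun a _ b _ => by rw [hcon a, hcon b]
          rw [Finset.card_univ, Fintype.card_fin] at this
          omega
        have h7 := congrFun h6 j
        simp [hj] at h7
        exact (hJ.pos i i).ne' h7
      have h2 := mul_le_mul_of_nonneg_right (hdiag i) (by linarith : 0 ≤ 3 * q)
      linarith
    have hB : ∀ i, 3 + (3 * q - 7 * δ) / (q + 3 * δ)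
        + (6 * q ^ 2 + 4 * q * δ + 6 * δ ^ 2) / (q * (q + 3 * δ) ^ 2) * (∑ j, J i j - q)
        ≤ 2 * ((∑ j, J i j) * J⁻¹ i i) := by
      intro i
      refine caseB hδ ?_ (hrpos i) hqlow.1 hqlow.2 (hQ i) fun p s => ?_
      · linarith [hlow i]
      · have := hps i p s
        rw [hq'] at this
        exact this
    have hBs := Finset.sum_le_sum (s := univ) fun i _ => hB i
    rw [Finset.sum_add_distrib, ← Finset.mul_sum, hqsum, mul_zero, add_zero,
      ← Finset.mul_sum] at hBs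
    simp only [Finset.sum_const, Finset.card_univ, Fintype.card_fin, nsmul_eq_mul, hn3] at hBs
    have hs2 : ∑ i, (∑ j, J i j) * (2 * J⁻¹ i i - t)
        = 2 * ∑ i, (∑ j, J i j) * J⁻¹ i i - t * (3 * q) := by
      rw [← hq', Finset.mul_sum, Finset.mul_sum, ← Finset.sum_sub_distrib]
      exact Finset.sum_congr rfl fun i _ => by ring
    rw [hs2, hn3] at hsum
    have hq3 : 0 < q + 3 * δ := by linarith [hqlow.1, hqlow.2]
    have h1 : (3 * q - 7 * δ) / (q + 3 * δ) ≤ t * q - 2 := by linarith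
    rw [div_le_iff₀ hq3] at h1
    have h2 : (4 + δ) * ((5 * q - δ) - t * q * (q + 3 * δ))
        = (4 + δ - q) * (t * (4 + δ) * q - δ) := by
      have e : t * ((1 + δ) * (4 + δ)) = 5 + δ := ht3
      linear_combination (-4 * q) * e
    have h3 : 0 < t * (4 + δ) * q - δ := by
      have e1 : 1 ≤ t * (4 + δ) := by
        by_contra hcon
        push Not at hcon
        nlinarith
      have e2 : 1 * q ≤ t * (4 + δ) * q := mul_le_mul_of_nonneg_right e1 hqlow.2.le
      have : δ < q := by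
        rcases eq_or_lt_of_le hδ with h | h
        · rw [← h]; exact hqlow.2
        · linarith [hqlow.1]
      linarith
    have h4 : q = 4 + δ := by
      apply le_antisymm hqle
      by_contra hcon
      push Not at hcon
      have h5 : 0 < (4 + δ - q) * (t * (4 + δ) * q - δ) := mul_pos (by linarith) h3
      rw [← h2] at h5
      have h6 : 0 < (5 * q - δ) - t * q * (q + 3 * δ) :=
        (pos_iff_pos_of_mul_pos h5).1 (by linarith)
      linarith
    have h5 : ∑ i : Fin n, (2 * (n : ℝ) - 2 + δ - ∑ j, J i j) = 0 := by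
      rw [Finset.sum_sub_distrib, hq', h4]
      simp only [Finset.sum_const, Finset.card_univ, Fintype.card_fin, nsmul_eq_mul, hn3]
      ring
    intro i
    have h6 := (Finset.sum_eq_zero_iff_of_nonneg
      (fun i _ => by linarith [hrle i])).1 h5 i (mem_univ i)
    linarith

end mat

/-! ### General `m` -/

lemma InC.smul {n : ℕ} {m δ : ℝ} (hm : 0 < m) {J : Matrix (Fin n) (Fin n) ℝ} (hJ : InC m δ J) :
    InC 1 (δ / m) (m⁻¹ • J) := by
  have hdd : ∀ i, dd (m⁻¹ • J) i = dd J i / m := by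
    intro i
    simp only [dd, Matrix.smul_apply, smul_eq_mul, ← Finset.mul_sum]
    ring
  refine ⟨?_, fun i j => ?_, fun i j hij => ?_, fun i => ?_, fun i => ?_⟩
  · rw [Matrix.IsSymm, Matrix.transpose_smul, hJ.symm.eq]
  · simp only [Matrix.smul_apply, smul_eq_mul]
    exact mul_pos (inv_pos.2 hm) (hJ.pos i j)
  · simp only [Matrix.smul_apply, smul_eq_mul]
    rw [inv_mul_le_iff₀ hm]
    linarith [hJ.off i j hij]
  · rw [hdd]; exact div_nonneg (hJ.low i) hm.le
  · rw [hdd]; exact div_le_div_of_nonneg_right (hJ.up i) hm.le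

lemma main {n : ℕ} (hn : 3 ≤ n) {m δ : ℝ} (hm : 0 < m) (hδ : 0 ≤ δ)
    {J : Matrix (Fin n) (Fin n) ℝ} (hJ : InC m δ J)
    (hT : ∀ i, ∑ j, |J⁻¹ i j| ≤ (m * (n - 2) + δ + 2 * m * (n - 1))
      / ((m * (n - 2) + δ) * (m * (n - 2) + δ + m * n))) :
    J = S n (m * (n - 2) + δ) m := by
  have hn' : (3 : ℝ) ≤ n := by exact_mod_cast hn
  have hJ' := hJ.smul hm
  have hinv : (m⁻¹ • J)⁻¹ = m • J⁻¹ := by
    have hu := det_unit hn hJ
    apply Matrix.inv_eq_right_inv
    rw [Matrix.smul_mul, Matrix.mul_smul, Matrix.mul_nonsing_inv _ hu, smul_smul,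
      inv_mul_cancel₀ hm.ne', one_smul]
  have h1 := main1 hn (div_nonneg hδ hm.le) hJ' rfl (fun i => by
    rw [hinv]
    simp only [Matrix.smul_apply, smul_eq_mul, abs_mul, abs_of_pos hm]
    rw [← Finset.mul_sum]
    have h2 := mul_le_mul_of_nonneg_left (hT i) hm.le
    refine h2.trans (le_of_eq ?_)
    have e1 : 0 < m * (n - 2) + δ := by nlinarith
    have e2 : 0 < m * (n - 2) + δ + m * n := by nlinarith
    have e3 : (0 : ℝ) < n - 2 + δ / m := by
      have := div_nonneg hδ hm.le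
      linarith
    have e4 : (0 : ℝ) < 2 * n - 2 + δ / m := by
      have := div_nonneg hδ hm.le
      linarith
    have f1 : m * (n - 2) + δ = m * (n - 2 + δ / m) := by field_simp
    have f2 : m * (n - 2) + δ + m * n = m * (2 * n - 2 + δ / m) := by
      field_simp; ring
    have f3 : m * (n - 2) + δ + 2 * m * (n - 1) = m * (3 * n - 4 + δ / m) := by
      field_simp; ring
    rw [f2, f3, f1]
    generalize (n : ℝ) - 2 + δ / m = a at *
    generalize 2 * (n : ℝ) - 2 + δ / m = b at *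
    field_simp)
  apply eq_S hJ
  intro i
  have h2 := h1 i
  simp only [Matrix.smul_apply, smul_eq_mul, ← Finset.mul_sum] at h2
  rw [inv_mul_eq_iff_eq_mul₀ hm.ne'] at h2
  rw [h2]
  field_simp

lemma S_inv {n : ℕ} (hn : 3 ≤ n) {α m : ℝ} (hα : 0 < α) (hm : 0 < m) :
    (S n α m)⁻¹ = (1 / α) • (1 : Matrix (Fin n) (Fin n) ℝ)
      - (m / (α * (α + m * n))) • Matrix.of (fun _ _ => (1 : ℝ)) := by
  apply Matrix.inv_eq_right_inv
  have hsq : (Matrix.of (fun _ _ => (1 : ℝ)) : Matrix (Fin n) (Fin n) ℝ)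
      * Matrix.of (fun _ _ => (1 : ℝ)) = (n : ℝ) • Matrix.of (fun _ _ => (1 : ℝ)) := by
    ext i j
    simp [Matrix.mul_apply]
  have hn' : (0 : ℝ) < α + m * n := by positivity
  simp only [S, Matrix.add_mul, Matrix.mul_sub, Matrix.smul_mul, Matrix.mul_smul, Matrix.one_mul,
    Matrix.mul_one, hsq, smul_smul]
  ext i j
  simp only [Matrix.add_apply, Matrix.sub_apply, Matrix.smul_apply, Matrix.of_apply, smul_eq_mul,
    mul_one]
  field_simp
  ring

lemma S_rowNorm {n : ℕ} (hn : 3 ≤ n) {α m : ℝ} (hα : 0 < α) (hm : 0 < m) (i : Fin n) :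
    ∑ j, |(S n α m)⁻¹ i j| = (α + 2 * m * (n - 1)) / (α * (α + m * n)) := by
  rw [S_inv hn hα hm, ← Finset.add_sum_erase univ _ (mem_univ i)]
  have hn' : (0 : ℝ) < α + m * n := by positivity
  have hn3 : (3 : ℝ) ≤ n := by exact_mod_cast hn
  have h1 : ∀ j ∈ univ.erase i, |((1 / α) • (1 : Matrix (Fin n) (Fin n) ℝ)
      - (m / (α * (α + m * n))) • (Matrix.of (fun _ _ => (1 : ℝ)) : Matrix (Fin n) (Fin n) ℝ)) i j|
      = m / (α * (α + m * n)) := by
    intro j hj
    have hij : i ≠ j := (Finset.ne_of_mem_erase hj).symm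
    simp only [Matrix.sub_apply, Matrix.smul_apply, Matrix.one_apply_ne hij, Matrix.of_apply,
      smul_eq_mul, mul_one, mul_zero, zero_sub, abs_neg]
    exact abs_of_pos (by positivity)
  rw [Finset.sum_congr rfl h1, Finset.sum_const, Finset.card_erase_of_mem (mem_univ i),
    Finset.card_univ, Fintype.card_fin, nsmul_eq_mul, Nat.cast_sub (by omega), Nat.cast_one]
  simp only [Matrix.sub_apply, Matrix.smul_apply, Matrix.one_apply_eq, Matrix.of_apply,
    smul_eq_mul, mul_one]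
  have h2 : 0 < 1 / α - m / (α * (α + m * n)) := by
    have : 1 / α - m / (α * (α + m * n)) = (α + m * (n - 1)) / (α * (α + m * n)) := by
      field_simp; ring
    rw [this]
    apply div_pos _ (by positivity)
    nlinarith
  rw [abs_of_pos h2]
  field_simp
  ring

/-- For `n ≥ 3`, `m > 0`, `δ ≥ 0` and every `J` in `C_n(m, δ)`, `J` is invertible,
`‖J⁻¹‖_∞ ≥ ‖S(α, m)⁻¹‖_∞` with `α = m (n - 2) + δ`, the right-hand side has the stated value, and
equality holds if and only if `J = S(α, m)`. -/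
theorem result (n : ℕ) (hn : 3 ≤ n) (m δ : ℝ) (hm : 0 < m) (hδ : 0 ≤ δ)
    (J : Matrix (Fin n) (Fin n) ℝ) (hJ : InC m δ J) :
    IsUnit J.det ∧
    rowNorm (S n (m * (n - 2) + δ) m)⁻¹ = (m * (n - 2) + δ + 2 * m * (n - 1))
      / ((m * (n - 2) + δ) * (m * (n - 2) + δ + m * n)) ∧
    rowNorm (S n (m * (n - 2) + δ) m)⁻¹ ≤ rowNorm J⁻¹ ∧
    (rowNorm J⁻¹ = rowNorm (S n (m * (n - 2) + δ) m)⁻¹ ↔ J = S n (m * (n - 2) + δ) m) := by
  have hn3 : (3 : ℝ) ≤ n := by exact_mod_cast hn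
  have hα : 0 < m * (n - 2) + δ := by nlinarith
  have : Nonempty (Fin n) := ⟨⟨0, by omega⟩⟩
  have hval : rowNorm (S n (m * (n - 2) + δ) m)⁻¹ = (m * (n - 2) + δ + 2 * m * (n - 1))
      / ((m * (n - 2) + δ) * (m * (n - 2) + δ + m * n)) := by
    rw [rowNorm]
    simp only [S_rowNorm hn hα hm, ciSup_const]
  have hrow : ∀ i, ∑ j, |J⁻¹ i j| ≤ rowNorm J⁻¹ := fun i =>
    le_ciSup (f := fun i => ∑ j, |J⁻¹ i j|) (Set.finite_range _).bddAbove i
  have hmain : rowNorm J⁻¹ ≤ rowNorm (S n (m * (n - 2) + δ) m)⁻¹ →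
      J = S n (m * (n - 2) + δ) m := by
    intro h
    apply main hn hm hδ hJ
    intro i
    rw [← hval]
    exact (hrow i).trans h
  refine ⟨det_unit hn hJ, hval, ?_, fun h => hmain h.le, fun h => by rw [← h]⟩
  by_contra hcon
  push Not at hcon
  have := hmain hcon.le
  rw [← this] at hcon
  exact lt_irrefl _ hcon

end Pool.Agent.Results.MP_7ad8d2_an.MinimalInverseNorm
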